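import Pool.Agent.K7.H12.UI.Conc

/-!
# Project UI, job TW
-/

set_option autoImplicit false

namespace Pool.Agent.K7.H53.UI

open Pool.Agent.K7.H12.UI

section basic

variable {P : Par}

theorem mem_nb (v y : Vt P) : y ∈ nb (gph P) v ↔ v ≠ y ∧ ¬ Mis P (lab v) (lab y) := Iff.rfl

theorem Ok_mono {A A' B : ℕ} (hA : A' ≤ A) (hok : Ok P A B) : Ok P A' B where
  blk_lt := hok.blk_lt
  blk_mono := hok.blk_mono
  blk_card := hok.blk_card
  even := hok.even
  hr := hA.trans hok.hr
  hb := (Nat.mul_le_mul_right _ hA).trans hok.hb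
  hB := (Nat.mul_le_mul_right _ (Nat.mul_le_mul_right _ hA)).trans hok.hB

end basic

theorem ncard_le_of_injOn {α β : Type} [Finite β] (s : Set α) (f : α → β) (hf : Set.InjOn f s) :
    s.ncard ≤ Nat.card β := by
  rw [← Set.ncard_image_of_injOn hf]
  exact Set.ncard_le_card _

theorem tw (hD : StDiff) (hU : StUB) (hS : StSplit) (hL : StLB1) (hZ : StSize) : StTW := by
  intro X _ F R hX
  obtain ⟨c, hc, A1, hA1⟩ := hL X F R hX
  obtain ⟨C, hC, A2, hA2⟩ := hZ
  refine ⟨A1 + A2 + (⌈C / c⌉₊ + ⌈5 / c⌉₊ + 1), ?_⟩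
  intro P B hok cc l j
  classical
  obtain ⟨hm0, hn0, hbB, hblk, hn1, hn2, -, -, -, -, -, hmiss⟩ :=
    hA2 P B (Ok_mono (by omega) hok)
  have hlb := hA1 P B (Ok_mono (by omega) hok)
  haveI : Nonempty (Vt P) := (Nat.card_pos_iff.1 hn0).1
  set n : ℝ := (Nat.card (Vt P) : ℝ) with hn
  have hnpos : 0 < n := by rw [hn]; exact_mod_cast hn0
  -- sizes of the parameters
  have hr1 : 1 ≤ P.r := by have := l.2; omega
  have hb1 : 1 ≤ P.b := by have := cc.2; omega
  have hAb : C / c ≤ P.b := by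
    have h1 := hok.hb
    have h2 : ⌈C / c⌉₊ ≤ P.b := by
      calc ⌈C / c⌉₊ ≤ A1 + A2 + (⌈C / c⌉₊ + ⌈5 / c⌉₊ + 1) := by omega
        _ = (A1 + A2 + (⌈C / c⌉₊ + ⌈5 / c⌉₊ + 1)) * 1 := by ring
        _ ≤ (A1 + A2 + (⌈C / c⌉₊ + ⌈5 / c⌉₊ + 1)) * P.r ^ 2 :=
          Nat.mul_le_mul_left _ (Nat.one_le_pow _ _ hr1)
        _ ≤ P.b := h1
    exact (Nat.le_ceil _).trans (by exact_mod_cast h2)
  have hcB : (5 : ℝ) * (P.r * P.b) ≤ c * B := by
    have h1 := hok.hB
    have h2 : ⌈5 / c⌉₊ * (P.r * P.b) ≤ B := by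
      refine le_trans ?_ h1
      rw [mul_assoc]
      apply Nat.mul_le_mul_right
      omega
    have h3 : (5 : ℝ) / c ≤ (⌈5 / c⌉₊ : ℝ) := Nat.le_ceil (5 / c)
    have h4 : (⌈5 / c⌉₊ : ℝ) * (P.r * P.b) ≤ B := by exact_mod_cast h2
    have h5 : (5 : ℝ) / c * (P.r * P.b) ≤ B :=
      (mul_le_mul_of_nonneg_right h3 (by positivity)).trans h4
    calc (5 : ℝ) * (P.r * P.b) = c * ((5 : ℝ) / c * (P.r * P.b)) := by
          field_simp
      _ ≤ c * B := mul_le_mul_of_nonneg_left h5 hc.le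
  have hfew : C * (P.r * B) ≤ c * n := by
    have h1 : ((P.r * P.m : ℕ) : ℝ) ≤ n := hn2
    have h2 : ((P.b * B : ℕ) : ℝ) ≤ P.m := by exact_mod_cast hbB
    have h3 : C ≤ c * P.b := by
      rw [div_le_iff₀ hc] at hAb
      linarith
    calc C * (P.r * B) ≤ (c * P.b) * (P.r * B) := mul_le_mul_of_nonneg_right h3 (by positivity)
      _ = c * (P.r * ((P.b * B : ℕ) : ℝ)) := by push_cast; ring
      _ ≤ c * (P.r * P.m) := by
          apply mul_le_mul_of_nonneg_left _ hc.le
          exact mul_le_mul_of_nonneg_left h2 (by positivity)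
      _ ≤ c * n := by
          apply mul_le_mul_of_nonneg_left _ hc.le
          exact_mod_cast h1
  -- the vertices
  set G := gph P with hG
  set v : Vt P := tt cc l with hv
  set v' : Vt P := ww j with hv'
  have hvv : v ≠ v' := by
    rw [hv, hv']
    intro hh
    unfold tt ww at hh
    simp at hh
  have hdiff := (hD X (Vt P) F G R ∅ v v' hvv (Set.notMem_empty _) (Set.notMem_empty _)).1
  -- the part with both vertices
  have hboth : mu F G (E2 R ∅ v v') ≤ err X (Vt P) 2 := by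
    have h1 := (hU X (Vt P) F G (E2 R ∅ v v') {v, v'}).1 (by
      rintro φ _ ⟨⟨x, _, hx⟩, h2, _⟩ a ha
      simp only [Finset.mem_insert, Finset.mem_singleton] at ha
      rcases ha with rfl | rfl
      · exact ⟨x, hx⟩
      · exact h2)
    rwa [Finset.card_pair hvv] at h1
  have hpos2 : 0 ≤ mu F G (E2 R ∅ v' v) := by unfold mu; positivity
  set E := E1 R ∅ v v' with hE
  have hsp := hS X (Vt P) F G v E
  -- many missed bulk vertices
  set row : Fin (P.r + 1) := ⟨(l : ℕ) + 1, by have := l.2; omega⟩ with hrow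
  have hbkp : ∀ j' : Fin P.m, ((row, j') : Fin (P.r + 1) × Fin P.m).1.1 = 0 →
      P.m ≤ 2 * (((row, j') : Fin (P.r + 1) × Fin P.m).2 : ℕ) := by
    intro j' h0
    simp [hrow] at h0
  set M : Set (Vt P) := {y | ∃ j' : Fin P.m, P.blk j' = cc ∧ y = bk ⟨(row, j'), hbkp j'⟩} with hM
  have hMcard : B ≤ M.ncard := by
    have h1 := hok.blk_card cc cc.2
    have h2 : ({j : ℕ | j < P.m ∧ P.blk j = cc} : Set ℕ).ncard ≤ M.ncard := by
      apply Set.ncard_le_ncard_of_injOn
        (fun k => if hk : k < P.m then bk ⟨(row, ⟨k, hk⟩), hbkp ⟨k, hk⟩⟩ else v) _ _ (Set.toFinite _)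
      · rintro k ⟨hk, hk'⟩
        simp only [hk, dif_pos]
        exact ⟨⟨k, hk⟩, hk', rfl⟩
      · rintro k ⟨hk, _⟩ k' ⟨hk', _⟩ heq
        simp only [hk, hk', dif_pos] at heq
        unfold bk at heq
        simpa using heq
    omega
  -- the gain
  have hMnb : ∀ u ∈ M, u ∉ nb G v := by
    rintro u ⟨j', hj', rfl⟩ hu
    rw [hG, mem_nb] at hu
    apply hu.2
    show Mis P (Lab.t cc l) (Lab.bulk ((l : ℕ) + 1) j')
    exact ⟨hj', Nat.lt_succ_self _⟩
  have hMv : ∀ u ∈ M, u ≠ v := by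
    rintro u ⟨j', _, rfl⟩ hh
    rw [hv] at hh
    unfold tt bk at hh
    simp at hh
  have hMv' : ∀ u ∈ M, u ≠ v' := by
    rintro u ⟨j', _, rfl⟩ hh
    rw [hv'] at hh
    unfold ww bk at hh
    simp at hh
  have gain : ∀ s : Finset (Vt P), (∀ u ∈ s, u ∈ M) →
      mu F (upd G v (nb G v)) E + s.card * (c * err X (Vt P) 2) ≤
        mu F (upd G v (nb G v ∪ s)) E := by
    intro s
    induction s using Finset.induction_on with
    | empty => simp
    | insert u s hus ih =>
      intro hsub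
      have ih' := ih (fun y hy => hsub y (Finset.mem_insert_of_mem hy))
      have hu := hsub u (Finset.mem_insert_self _ _)
      have h1 := hsp.2.1 (nb G v ∪ s) u (by
        rintro (h2 | h2)
        · exact hMnb u hu h2
        · exact hus (by exact_mod_cast h2)) (hMv u hu)
      have hset : (nb G v ∪ ((insert u s : Finset (Vt P)) : Set (Vt P))) =
          insert u (nb G v ∪ s) := by
        rw [Finset.coe_insert, Set.union_insert]
      have h2 := hlb ∅ v v' u (insert u (nb G v ∪ s)) (by simp) hvv (hMv u hu) (hMv' u hu)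
        (Set.notMem_empty _) (Set.notMem_empty _) (Set.mem_insert _ _) (by
        refine le_trans ?_ hfew
        refine le_trans ?_ (hmiss v)
        have : ({y : Vt P | (∃ p, y = bk p) ∧ y ∉ insert u (nb G v ∪ s)}) ⊆
            {u | (∃ p, u = bk p) ∧ u ∉ nb (gph P) v} := by
          rintro y ⟨h3, h5⟩
          refine ⟨h3, fun h6 => h5 ?_⟩
          exact Set.mem_insert_of_mem _ (Or.inl h6)
        exact_mod_cast Set.ncard_le_ncard this (Set.toFinite _))
      rw [hset, h1, Finset.card_insert_of_notMem hus]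
      push_cast
      linarith
  have hfinM : M.Finite := Set.toFinite _
  have g1 := gain hfinM.toFinset (fun u hu => (Set.Finite.mem_toFinset hfinM).1 hu)
  rw [← Set.ncard_eq_toFinset_card M hfinM, Set.Finite.coe_toFinset] at g1
  -- the common upper set
  set S0 : Set (Vt P) := {y | ∀ j', lab y ≠ .w j'} with hS0
  have hsub1 : nb G v ∪ M ⊆ S0 ∪ nb G v' := by
    rintro y (hy | hy)
    · left
      rw [hG, mem_nb] at hy
      refine fun j' hj' => hy.2 ?_
      rw [hj']
      exact trivial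
    · left
      obtain ⟨j', _, rfl⟩ := hy
      intro j'' hh
      cases hh
  have g2 := hsp.1 _ _ hsub1
  have g3 := hsp.2.2 (fun φ hφ => hφ.1.imp fun _ h => h.2) (nb G v') (S0 ∪ nb G v')
    Set.subset_union_right
  -- the number of the vertices missed by `w`
  have hcount : (((S0 ∪ nb G v') \ nb G v').ncard : ℝ) ≤ 3 * (P.r * P.b) := by
    have hsub : (S0 ∪ nb G v') \ nb G v' ⊆
        {y | ∃ p : Bk P, p.1.2 = j ∧ y = bk p} ∪ {y | ∃ c' l', y = tt c' l'} := by
      rintro y ⟨hy | hy, hy'⟩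
      · have hne : v' ≠ y := by
          rintro rfl
          exact hy j rfl
        have hmis : Mis P (lab v') (lab y) := by
          by_contra hcon
          apply hy'
          rw [hG, mem_nb]
          exact ⟨hne, hcon⟩
        rcases y with p | ⟨c', l'⟩ | j'
        · left
          have : (p.1.2 : ℕ) = j := hmis.symm
          exact ⟨p, Fin.ext this, rfl⟩
        · right
          exact ⟨c', l', rfl⟩
        · exact absurd rfl (hy j')
      · exact absurd hy hy'
    have h1 : ({y : Vt P | ∃ p : Bk P, p.1.2 = j ∧ y = bk p} : Set (Vt P)).ncard ≤ P.r + 1 := by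
      have h2 := ncard_le_of_injOn ({y : Vt P | ∃ p : Bk P, p.1.2 = j ∧ y = bk p} : Set (Vt P))
        (fun y : Vt P => (match y with
          | Sum.inl p => p.1.1
          | _ => (0 : Fin (P.r + 1)))) (by
          rintro _ ⟨p1, h1, rfl⟩ _ ⟨p2, h2, rfl⟩ heq
          simp only [bk] at heq
          have : p1 = p2 := Subtype.ext (Prod.ext heq (h1.trans h2.symm))
          rw [this])
      rwa [Nat.card_eq_fintype_card, Fintype.card_fin] at h2
    have h3 : ({y : Vt P | ∃ c' l', y = tt c' l'} : Set (Vt P)).ncard ≤ P.b * P.r := by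
      have h4 := ncard_le_of_injOn ({y : Vt P | ∃ c' l', y = tt c' l'} : Set (Vt P))
        (fun y : Vt P => (match y with
          | Sum.inr (Sum.inl q) => q
          | _ => (cc, l))) (by
          rintro _ ⟨c1, i1, rfl⟩ _ ⟨c2, i2, rfl⟩ heq
          simp only [tt, Prod.mk.injEq] at heq
          rw [heq.1, heq.2])
      rwa [Nat.card_prod, Nat.card_eq_fintype_card, Nat.card_eq_fintype_card, Fintype.card_fin,
        Fintype.card_fin] at h4
    have h5 := (Set.ncard_le_ncard hsub (Set.toFinite _)).trans (Set.ncard_union_le _ _)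
    have h6 : P.r + 1 ≤ 2 * (P.r * P.b) := by
      have : P.r ≤ P.r * P.b := Nat.le_mul_of_pos_right _ hb1
      omega
    have h7 : ((S0 ∪ nb G v') \ nb G v').ncard ≤ 3 * (P.r * P.b) := by
      calc _ ≤ (P.r + 1) + P.b * P.r := h5.trans (Nat.add_le_add h1 h3)
        _ ≤ 2 * (P.r * P.b) + P.b * P.r := Nat.add_le_add_right h6 _
        _ = _ := by ring
    exact_mod_cast h7
  have herr : 0 < err X (Vt P) 2 := by
    unfold err
    have : 0 < (Nat.card X : ℝ) := by
      obtain ⟨x, _, _⟩ := hX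
      haveI : Nonempty X := ⟨x⟩
      have : 0 < Nat.card X := Nat.card_pos
      exact_mod_cast this
    positivity
  have hB' : (B : ℝ) ≤ M.ncard := by exact_mod_cast hMcard
  have f1 : (B : ℝ) * (c * err X (Vt P) 2) ≤ M.ncard * (c * err X (Vt P) 2) :=
    mul_le_mul_of_nonneg_right hB' (by positivity)
  have f2 : (((S0 ∪ nb G v') \ nb G v').ncard : ℝ) * err X (Vt P) 2 ≤
      3 * (P.r * P.b) * err X (Vt P) 2 := mul_le_mul_of_nonneg_right hcount herr.le
  have f3 : (5 : ℝ) * (P.r * P.b) * err X (Vt P) 2 ≤ c * B * err X (Vt P) 2 :=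
    mul_le_mul_of_nonneg_right hcB herr.le
  have f4 : (1 : ℝ) * err X (Vt P) 2 ≤ (P.r * P.b : ℝ) * err X (Vt P) 2 := by
    apply mul_le_mul_of_nonneg_right _ herr.le
    have : 1 ≤ P.r * P.b := Nat.one_le_iff_ne_zero.2 (Nat.mul_ne_zero (by omega) (by omega))
    exact_mod_cast this
  nlinarith [g1, g2, g3, hdiff, f1, f2, f3, f4, hboth, hpos2, herr]

end Pool.Agent.K7.H53.UI
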