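import Pool.Agent.K7.H12.UI.Defs

/-!
# Project UI, job SL
-/

set_option autoImplicit false

namespace Pool.Agent.K7.H53.UI

open Pool.Agent.K7.H12.UI

section basic

variable {X V : Type} [Finite X] [Finite V]

theorem mu_le_of_map (F : SimpleGraph X) (G G' : SimpleGraph V) (E E' : (X → V) → Prop)
    (g : (X → V) → (X → V)) (hg : Function.Injective g)
    (h : ∀ φ, φ ∈ homs F G E → g φ ∈ homs F G' E') : mu F G E ≤ mu F G' E' := by
  unfold mu
  apply div_le_div_of_nonneg_right _ (by positivity)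
  have h1 : (homs F G E).ncard = (g '' homs F G E).ncard :=
    (Set.ncard_image_of_injective _ hg).symm
  rw [h1]
  exact_mod_cast Set.ncard_le_ncard (by rintro _ ⟨φ, hφ, rfl⟩; exact h φ hφ) (Set.toFinite _)

theorem mu_le_of_subset (F : SimpleGraph X) (G G' : SimpleGraph V) (E E' : (X → V) → Prop)
    (h : ∀ φ : X → V, Function.Injective φ → (∀ x y, F.Adj x y → G.Adj (φ x) (φ y)) → E φ →
      (∀ x y, F.Adj x y → G'.Adj (φ x) (φ y)) ∧ E' φ) :
    mu F G E ≤ mu F G' E' := by
  apply mu_le_of_map F G G' E E' id Function.injective_id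
  rintro φ ⟨h1, h2, h3⟩
  exact ⟨h1, (h φ h1 h2 h3).1, (h φ h1 h2 h3).2⟩

theorem mu_le_add (F : SimpleGraph X) (G : SimpleGraph V) (E Q : (X → V) → Prop) :
    mu F G E ≤ mu F G (fun φ => E φ ∧ Q φ) + mu F G (fun φ => E φ ∧ ¬ Q φ) := by
  unfold mu
  rw [← add_div]
  apply div_le_div_of_nonneg_right _ (by positivity)
  have h : homs F G E ⊆ homs F G (fun φ => E φ ∧ Q φ) ∪ homs F G (fun φ => E φ ∧ ¬ Q φ) := by
    rintro φ ⟨h1, h2, h3⟩
    by_cases hq : Q φ
    · exact Or.inl ⟨h1, h2, h3, hq⟩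
    · exact Or.inr ⟨h1, h2, h3, hq⟩
  exact_mod_cast (Set.ncard_le_ncard h (Set.toFinite _)).trans (Set.ncard_union_le _ _)

theorem add_le_mu (F : SimpleGraph X) (G : SimpleGraph V) (E Q : (X → V) → Prop) :
    mu F G (fun φ => E φ ∧ Q φ) + mu F G (fun φ => E φ ∧ ¬ Q φ) ≤ mu F G E := by
  unfold mu
  rw [← add_div]
  apply div_le_div_of_nonneg_right _ (by positivity)
  have hd : Disjoint (homs F G (fun φ => E φ ∧ Q φ)) (homs F G (fun φ => E φ ∧ ¬ Q φ)) := by
    rw [Set.disjoint_left]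
    rintro φ ⟨_, _, _, h3⟩ ⟨_, _, _, h4⟩
    exact h4 h3
  have h : homs F G (fun φ => E φ ∧ Q φ) ∪ homs F G (fun φ => E φ ∧ ¬ Q φ) ⊆ homs F G E := by
    rintro φ (⟨h1, h2, h3, _⟩ | ⟨h1, h2, h3, _⟩)
    · exact ⟨h1, h2, h3⟩
    · exact ⟨h1, h2, h3⟩
  have h5 := Set.ncard_le_ncard h (Set.toFinite _)
  rw [Set.ncard_union_eq hd (Set.toFinite _) (Set.toFinite _)] at h5
  exact_mod_cast h5

end basic

section graph

variable {V : Type} {G : SimpleGraph V}

theorem adj_upd {s : V} {P : Set V} {a b : V} (ha : a ≠ s) (hb : b ≠ s) :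
    (upd G s P).Adj a b ↔ G.Adj a b := by
  constructor
  · rintro (h | h | h)
    · exact h.2.2
    · exact absurd h.1 ha
    · exact absurd h.1 hb
  · intro h
    exact Or.inl ⟨ha, hb, h⟩

theorem adj_upd_s {s : V} {P : Set V} {a : V} (ha : a ≠ s) :
    (upd G s P).Adj a s ↔ a ∈ P := by
  constructor
  · rintro (h | h | h)
    · exact absurd rfl h.2.1
    · exact absurd h.1 ha
    · exact h.2.2
  · intro h
    exact Or.inr (Or.inr ⟨rfl, ha, h⟩)

end graph

section main

variable {X V : Type} [Finite X] [Finite V] {F : SimpleGraph X} {G : SimpleGraph V} {R : Set X}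

/-- step (i): the copies through `z` and `z'` -/
theorem step_in [Nonempty V] (hUB : StUB) {v v' z z' : V} (hzz : z ≠ z')
    (hvz1 : v ≠ z) (hvz2 : v ≠ z') (hv'z1 : v' ≠ z) (hv'z2 : v' ≠ z') {P : Set V} (hzP : z ∉ P)
    (hzP' : z' ∉ P) :
    mu F (upd G v (insert z' P)) (fun φ => (E1 R ∅ v v' φ ∧ Uses F v z' φ) ∧ z ∈ Set.range φ) ≤
      mu F (upd G v (insert z P)) (fun φ => (E1 R ∅ v v' φ ∧ Uses F v z φ) ∧ z' ∈ Set.range φ) +
        ((sd G z z').ncard : ℝ) * err X V 4 := by
  classical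
  set A : Finset V := {v, z, z'} with hA
  have hAc : A.card = 3 := by
    rw [hA, Finset.card_insert_of_notMem, Finset.card_insert_of_notMem, Finset.card_singleton]
    · simpa using hzz
    · simp [hvz1, hvz2]
  have h1 := mu_le_add F (upd G v (insert z' P))
    (fun φ => (E1 R ∅ v v' φ ∧ Uses F v z' φ) ∧ z ∈ Set.range φ)
    (fun φ => ∃ c ∈ sd G z z', c ∉ A ∧ c ∈ Set.range φ)
  have h2 := (hUB X V F (upd G v (insert z' P))
    (fun φ => ((E1 R ∅ v v' φ ∧ Uses F v z' φ) ∧ z ∈ Set.range φ) ∧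
      ∃ c ∈ sd G z z', c ∉ A ∧ c ∈ Set.range φ) A).2 (sd G z z') (by
      rintro φ _ ⟨⟨⟨hE, ⟨x, y, _, hx, hy⟩⟩, hz⟩, hc⟩
      refine ⟨?_, hc⟩
      intro a ha
      rw [hA] at ha
      simp only [Finset.mem_insert, Finset.mem_singleton] at ha
      rcases ha with rfl | rfl | rfl
      · exact ⟨x, hx⟩
      · exact hz
      · exact ⟨y, hy⟩)
  rw [hAc] at h2
  have h3 : mu F (upd G v (insert z' P))
      (fun φ => ((E1 R ∅ v v' φ ∧ Uses F v z' φ) ∧ z ∈ Set.range φ) ∧
        ¬ ∃ c ∈ sd G z z', c ∉ A ∧ c ∈ Set.range φ) ≤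
      mu F (upd G v (insert z P))
        (fun φ => (E1 R ∅ v v' φ ∧ Uses F v z φ) ∧ z' ∈ Set.range φ) := by
    set τ : Equiv.Perm V := Equiv.swap z z' with hτ
    have τv : τ v = v := Equiv.swap_apply_of_ne_of_ne hvz1 hvz2
    have τv' : τ v' = v' := Equiv.swap_apply_of_ne_of_ne hv'z1 hv'z2
    have τz : τ z = z' := Equiv.swap_apply_left _ _
    have τz' : τ z' = z := Equiv.swap_apply_right _ _
    have τo : ∀ c, c ≠ z → c ≠ z' → τ c = c := fun c h1 h2 =>
      Equiv.swap_apply_of_ne_of_ne h1 h2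
    apply mu_le_of_map _ _ _ _ _ (fun φ => τ ∘ φ)
    · intro φ ψ h
      funext x
      exact τ.injective (congrFun h x)
    · rintro φ ⟨hinj, hhom, ⟨⟨⟨⟨xv, hxR, hxv⟩, hv', hZ⟩, ⟨x, y, hxy, hx, hy⟩⟩, ⟨xz, hxz⟩⟩, hgood⟩
      -- the vertices of the copy other than `v`, `z`, `z'` do not distinguish `z` and `z'`
      have hsd : ∀ c, φ c ≠ v → φ c ≠ z → φ c ≠ z' → (G.Adj z (φ c) ↔ G.Adj z' (φ c)) := by
        intro c h1 h2 h3
        by_contra hh
        apply hgood
        refine ⟨φ c, ⟨h2, h3, hh⟩, ?_, ⟨c, rfl⟩⟩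
        rw [hA]
        simp only [Finset.mem_insert, Finset.mem_singleton, not_or]
        exact ⟨h1, h2, h3⟩
      -- adjacency is preserved by `τ` away from `v`
      have hpres : ∀ a b, φ a ≠ v → φ b ≠ v → G.Adj (φ a) (φ b) → G.Adj (τ (φ a)) (τ (φ b)) := by
        intro a b hav hbv hab
        by_cases ha : φ a = z
        · by_cases hb : φ b = z'
          · rw [ha, hb, τz, τz']
            rw [ha, hb] at hab
            exact hab.symm
          · have hbz : φ b ≠ z := by
              intro h; rw [ha, h] at hab; exact hab.ne rfl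
            rw [ha, τz, τo _ hbz hb]
            rw [ha] at hab
            exact (hsd b hbv hbz hb).1 hab
        · by_cases ha' : φ a = z'
          · by_cases hb : φ b = z
            · rw [ha', hb, τz, τz']
              rw [ha', hb] at hab
              exact hab.symm
            · have hbz : φ b ≠ z' := by
                intro h; rw [ha', h] at hab; exact hab.ne rfl
              rw [ha', τz', τo _ hb hbz]
              rw [ha'] at hab
              exact (hsd b hbv hb hbz).2 hab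
          · rw [τo _ ha ha']
            by_cases hb : φ b = z
            · rw [hb, τz]
              rw [hb] at hab
              exact ((hsd a hav ha ha').1 hab.symm).symm
            · by_cases hb' : φ b = z'
              · rw [hb', τz']
                rw [hb'] at hab
                exact ((hsd a hav ha ha').2 hab.symm).symm
              · rw [τo _ hb hb']
                exact hab
      refine ⟨τ.injective.comp hinj, ?_, ⟨⟨⟨xv, hxR, ?_⟩, ?_, ?_⟩, ⟨x, y, hxy, ?_, ?_⟩⟩, ⟨xz, ?_⟩⟩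
      · intro a b hab
        have h := hhom a b hab
        show (upd G v (insert z P)).Adj (τ (φ a)) (τ (φ b))
        rcases h with ⟨hav, hbv, hG1⟩ | ⟨hav, hbv, hbP⟩ | ⟨hbv, hav, haP⟩
        · left
          have hav' : τ (φ a) ≠ v := fun hh => hav (τ.injective (hh.trans τv.symm))
          have hbv' : τ (φ b) ≠ v := fun hh => hbv (τ.injective (hh.trans τv.symm))
          exact ⟨hav', hbv', hpres a b hav hbv hG1⟩
        · right; left
          have hbv' : τ (φ b) ≠ v := fun hh => hbv (τ.injective (hh.trans τv.symm))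
          refine ⟨by rw [hav, τv], hbv', ?_⟩
          rcases hbP with hb | hb
          · rw [hb, τz']
            exact Set.mem_insert _ _
          · rw [τo _ (fun h => hzP (h ▸ hb)) (fun h => hzP' (h ▸ hb))]
            exact Set.mem_insert_of_mem _ hb
        · right; right
          have hav' : τ (φ a) ≠ v := fun hh => hav (τ.injective (hh.trans τv.symm))
          refine ⟨by rw [hbv, τv], hav', ?_⟩
          rcases haP with hb | hb
          · rw [hb, τz']
            exact Set.mem_insert _ _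
          · rw [τo _ (fun h => hzP (h ▸ hb)) (fun h => hzP' (h ▸ hb))]
            exact Set.mem_insert_of_mem _ hb
      · show τ (φ xv) = v
        rw [hxv, τv]
      · rintro ⟨w, hw⟩
        exact hv' ⟨w, τ.injective (hw.trans τv'.symm)⟩
      · intro c hc
        exact absurd hc (Set.notMem_empty c)
      · show τ (φ x) = v
        rw [hx, τv]
      · show τ (φ y) = z
        rw [hy, τz']
      · show τ (φ xz) = z'
        rw [hxz, τz]
  linarith

/-- step (ii): the copies through `z'` and not `z` -/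
theorem step_out {v v' z z' : V}
    (hvz1 : v ≠ z) (hvz2 : v ≠ z') (hv'z1 : v' ≠ z) (hv'z2 : v' ≠ z') {P : Set V} :
    mu F (upd G v (insert z' P)) (fun φ => (E1 R ∅ v v' φ ∧ Uses F v z' φ) ∧ ¬ z ∈ Set.range φ) ≤
      mu F (upd (upd G v (insert z P)) z (insert v (nb G z')))
        (fun φ => E1 R ∅ v v' φ ∧ z' ∉ Set.range φ ∧ Uses F v z φ) := by
  classical
  set τ : Equiv.Perm V := Equiv.swap z z' with hτ
  have τv : τ v = v := Equiv.swap_apply_of_ne_of_ne hvz1 hvz2
  have τv' : τ v' = v' := Equiv.swap_apply_of_ne_of_ne hv'z1 hv'z2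
  have τz : τ z = z' := Equiv.swap_apply_left _ _
  have τz' : τ z' = z := Equiv.swap_apply_right _ _
  have τo : ∀ c, c ≠ z → c ≠ z' → τ c = c := fun c h1 h2 =>
    Equiv.swap_apply_of_ne_of_ne h1 h2
  apply mu_le_of_map _ _ _ _ _ (fun φ => τ ∘ φ)
  · intro φ ψ h
    funext x
    exact τ.injective (congrFun h x)
  · rintro φ ⟨hinj, hhom, ⟨⟨⟨⟨xv, hxR, hxv⟩, hv', hZ⟩, ⟨x, y, hxy, hx, hy⟩⟩, hz⟩⟩
    have hnz : ∀ w, φ w ≠ z := fun w hw => hz ⟨w, hw⟩
    refine ⟨τ.injective.comp hinj, ?_, ⟨⟨xv, hxR, ?_⟩, ?_, ?_⟩, ?_, ⟨x, y, hxy, ?_, ?_⟩⟩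
    · intro a b hab
      have h := hhom a b hab
      have hne : φ a ≠ φ b := h.ne
      show (upd (upd G v (insert z P)) z (insert v (nb G z'))).Adj (τ (φ a)) (τ (φ b))
      by_cases ha : φ a = z'
      · have hbz' : φ b ≠ z' := fun hh => hne (ha.trans hh.symm)
        right; left
        refine ⟨by rw [ha, τz'], ?_, ?_⟩
        · rw [τo _ (hnz b) hbz']
          exact hnz b
        rw [τo _ (hnz b) hbz']
        rcases h with ⟨hav, hbv, hG1⟩ | ⟨hav, _, hbP⟩ | ⟨hbv, _, haP⟩
        · right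
          rw [ha] at hG1
          exact hG1
        · exact absurd (hav.symm.trans ha) hvz2
        · left; exact hbv
      · by_cases hb : φ b = z'
        · right; right
          refine ⟨by rw [hb, τz'], ?_, ?_⟩
          · rw [τo _ (hnz a) ha]
            exact hnz a
          rw [τo _ (hnz a) ha]
          rcases h with ⟨hav, hbv, hG1⟩ | ⟨hav, _, hbP⟩ | ⟨hbv, _, haP⟩
          · right
            rw [hb] at hG1
            exact hG1.symm
          · left; exact hav
          · exact absurd (hbv.symm.trans hb) hvz2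
        · rw [τo _ (hnz a) ha, τo _ (hnz b) hb]
          left
          refine ⟨hnz a, hnz b, ?_⟩
          rcases h with h5 | ⟨hav, hbv, hbP⟩ | ⟨hbv, hav, haP⟩
          · exact Or.inl h5
          · right; left
            refine ⟨hav, hbv, ?_⟩
            rcases hbP with h6 | h6
            · exact absurd h6 hb
            · exact Set.mem_insert_of_mem _ h6
          · right; right
            refine ⟨hbv, hav, ?_⟩
            rcases haP with h6 | h6
            · exact absurd h6 ha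
            · exact Set.mem_insert_of_mem _ h6
    · show τ (φ xv) = v
      rw [hxv, τv]
    · rintro ⟨w, hw⟩
      exact hv' ⟨w, τ.injective (hw.trans τv'.symm)⟩
    · intro c hc
      exact absurd hc (Set.notMem_empty c)
    · rintro ⟨w, hw⟩
      exact hz ⟨w, τ.injective (hw.trans τz.symm)⟩
    · show τ (φ x) = v
      rw [hx, τv]
    · show τ (φ y) = z
      rw [hy, τz']

/-- a vertex outside all copies can be removed from the new neighbourhood -/
theorem drop (G : SimpleGraph V) (s w : V) (Q Q' : Set V) (E : (X → V) → Prop)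
    (hE : ∀ φ, E φ → w ∉ Set.range φ) (hQ : ∀ c, c ∈ Q → c ≠ w → c ≠ s → c ∈ Q') :
    mu F (upd G s Q) E ≤ mu F (upd G s Q') E := by
  apply mu_le_of_subset
  intro φ _ hh he
  refine ⟨?_, he⟩
  intro a b hab
  have h := hh a b hab
  have hna : φ a ≠ w := fun h' => hE φ he ⟨a, h'⟩
  have hnb : φ b ≠ w := fun h' => hE φ he ⟨b, h'⟩
  rcases h with h1 | ⟨h1, h3, h2⟩ | ⟨h1, h3, h2⟩
  · exact Or.inl h1
  · exact Or.inr (Or.inl ⟨h1, h3, hQ _ h2 hnb h3⟩)
  · exact Or.inr (Or.inr ⟨h1, h3, hQ _ h2 hna h3⟩)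

/-- with (at most) the old neighbourhood of `z` -/
theorem back {v v' z z' : V} (hvz1 : v ≠ z) {P : Set V}
    (Q : Set V) (hQ : ∀ c, c ∈ Q → c ≠ v → c ≠ v' → c ≠ z → c ≠ z' → c ∈ nb G z) :
    mu F (upd (upd G v (insert z P)) z Q)
        (fun φ => E1 R ∅ v v' φ ∧ z' ∉ Set.range φ ∧ Uses F v z φ) ≤
      mu F (upd G v (insert z P))
        (fun φ => (E1 R ∅ v v' φ ∧ Uses F v z φ) ∧ ¬ z' ∈ Set.range φ) := by
  apply mu_le_of_subset
  rintro φ _ hh ⟨he, hz', hu⟩
  refine ⟨?_, ⟨he, hu⟩, hz'⟩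
  intro a b hab
  have h := hh a b hab
  have hna : φ a ≠ v' := fun h' => he.2.1 ⟨a, h'⟩
  have hnb : φ b ≠ v' := fun h' => he.2.1 ⟨b, h'⟩
  have hna' : φ a ≠ z' := fun h' => hz' ⟨a, h'⟩
  have hnb' : φ b ≠ z' := fun h' => hz' ⟨b, h'⟩
  rcases h with h1 | ⟨h1, h3, h2⟩ | ⟨h1, h3, h2⟩
  · exact h1.2.2
  · by_cases hb : φ b = v
    · right; right
      refine ⟨hb, by rw [h1]; exact hvz1.symm, ?_⟩
      rw [h1]; exact Set.mem_insert _ _
    · left
      have hav : φ a ≠ v := by rw [h1]; exact hvz1.symm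
      refine ⟨hav, hb, ?_⟩
      rw [h1]
      exact hQ _ h2 hb hnb h3 hnb'
  · by_cases hb : φ a = v
    · right; left
      refine ⟨hb, by rw [h1]; exact hvz1.symm, ?_⟩
      rw [h1]; exact Set.mem_insert _ _
    · left
      have hav : φ b ≠ v := by rw [h1]; exact hvz1.symm
      refine ⟨hb, hav, ?_⟩
      rw [h1]
      exact (hQ _ h2 hb hna h3 hna' : G.Adj z (φ a)).symm

theorem err_nonneg (X V : Type) (q : ℕ) : 0 ≤ err X V q := by
  unfold err; positivity

end main

theorem sl (hUB : StUB) (hCh : StChain) (hSp : StSplit) : StSL := by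
  intro X V _ _ _ F G R v v' z z' hvv hzz hvz1 hvz2 hv'z1 hv'z2 P hzP hzP' ι I f f' U hI hf hf' hff
    hN hN'
  classical
  set G1 := upd G v (insert z P) with hG1
  set E2 : (X → V) → Prop := fun φ => E1 R ∅ v v' φ ∧ z' ∉ Set.range φ ∧ Uses F v z φ with hE2
  -- splitting off the edge to `z`, `z'`
  have s1 := (hSp X V F G v (E1 R ∅ v v')).2.1 P z hzP hvz1.symm
  have s2 := (hSp X V F G v (E1 R ∅ v v')).2.1 P z' hzP' hvz2.symm
  have t1 := add_le_mu F G1 (fun φ => E1 R ∅ v v' φ ∧ Uses F v z φ) (fun φ => z' ∈ Set.range φ)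
  have t2 := mu_le_add F (upd G v (insert z' P)) (fun φ => E1 R ∅ v v' φ ∧ Uses F v z' φ)
    (fun φ => z ∈ Set.range φ)
  have hin := step_in (F := F) (G := G) (R := R) hUB hzz hvz1 hvz2 hv'z1 hv'z2 hzP hzP'
  have hout := step_out (F := F) (G := G) (R := R) (P := P) hvz1 hvz2 hv'z1 hv'z2
  -- the chain
  set U' : Set V := insert v U with hU'
  have hE2v' : ∀ φ, E2 φ → v' ∉ Set.range φ := fun φ h => h.1.2.1
  have c1 : mu F (upd G1 z (insert v (nb G z'))) E2 ≤ mu F (upd G1 z (U' ∪ f '' I)) E2 := by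
    apply drop G1 z v' _ _ E2 hE2v'
    rintro c (hc | hc) hcv' hcz
    · left; left; exact hc
    · by_cases hcv : c = v
      · left; left; exact hcv
      · rcases hN c hc hcv hcv' hcz with h | h
        · left; right; exact h
        · right; exact h
  have hPiff : ∀ i ∈ I, (f i ∈ insert z P ↔ f' i ∈ insert z P) := by
    intro i hi
    obtain ⟨_, _, _, _, _, _, k1, k3, _, _, h9⟩ := hI i hi
    rw [Set.mem_insert_iff, Set.mem_insert_iff]
    constructor
    · rintro (h | h)
      · exact absurd h k1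
      · exact Or.inr (h9.1 h)
    · rintro (h | h)
      · exact absurd h k3
      · exact Or.inr (h9.2 h)
  have c2 := hCh X V F G1 z {v, z} E2 (by simp) (by
      rintro φ _ ⟨h1, h2, ⟨x, y, _, hx, hy⟩⟩ a ha
      simp only [Finset.mem_insert, Finset.mem_singleton] at ha
      rcases ha with rfl | rfl
      · exact ⟨x, hx⟩
      · exact ⟨y, hy⟩) ι I f f' U' (by
      intro i hi
      obtain ⟨h1, h2, h3, h4, h5, h6, k1, k3, k2, k4, h9⟩ := hI i hi
      refine ⟨?_, ?_, ?_, ?_, ?_, ?_⟩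
      · rintro (h | h)
        · exact h3 h
        · exact h1 h
      · rintro (h | h)
        · exact h4 h
        · exact h2 h
      · simp only [Finset.mem_insert, Finset.mem_singleton, not_or]
        exact ⟨h3, k1⟩
      · simp only [Finset.mem_insert, Finset.mem_singleton, not_or]
        exact ⟨h4, k3⟩
      · intro a ha has
        simp only [Finset.mem_insert, Finset.mem_singleton] at ha
        rcases ha with rfl | rfl
        · rw [SimpleGraph.adj_comm, SimpleGraph.adj_comm _ _ (f' i), hG1, adj_upd_s h3,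
            adj_upd_s h4]
          exact hPiff i hi
        · exact absurd rfl has
      · rintro φ ⟨⟨⟨xv, hxR, hxv⟩, hv', hZ⟩, hz', ⟨x, y, hxy, hx, hy⟩⟩ τ hτ
        have τv : τ v = v := hτ v h3.symm h4.symm
        have τv' : τ v' = v' := hτ v' h5.symm h6.symm
        have τz : τ z = z := hτ z k1.symm k3.symm
        have τz' : τ z' = z' := hτ z' k2.symm k4.symm
        refine ⟨⟨⟨xv, hxR, ?_⟩, ?_, ?_⟩, ?_, ⟨x, y, hxy, ?_, ?_⟩⟩
        · show τ (φ xv) = v
          rw [hxv, τv]
        · rintro ⟨w, hw⟩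
          exact hv' ⟨w, τ.injective (hw.trans τv'.symm)⟩
        · intro c hc
          exact absurd hc (Set.notMem_empty c)
        · rintro ⟨w, hw⟩
          exact hz' ⟨w, τ.injective (hw.trans τz'.symm)⟩
        · show τ (φ x) = v
          rw [hx, τv]
        · show τ (φ y) = z
          rw [hy, τz]) hf hf' hff
  have hcard : ({v, z} : Finset V).card + 2 = 4 := by
    rw [Finset.card_pair hvz1]
  rw [hcard] at c2
  have c3 : ∑ i ∈ I, ((sd G1 (f i) (f' i)).ncard : ℝ) * err X V 4 ≤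
      (∑ i ∈ I, ((sd G (f i) (f' i)).ncard : ℝ)) * err X V 4 := by
    rw [Finset.sum_mul]
    apply Finset.sum_le_sum
    intro i hi
    obtain ⟨h1, h2, h3, h4, h5, h6, k1, k3, k2, k4, h9⟩ := hI i hi
    apply mul_le_mul_of_nonneg_right _ (err_nonneg X V 4)
    have : sd G1 (f i) (f' i) ⊆ sd G (f i) (f' i) := by
      rintro c ⟨hc1, hc2, hc⟩
      refine ⟨hc1, hc2, fun hh => hc ?_⟩
      by_cases hcv : c = v
      · rw [hcv, hG1, adj_upd_s h3, adj_upd_s h4]
        exact hPiff i hi
      · rw [hG1, adj_upd h3 hcv, adj_upd h4 hcv]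
        exact hh
    exact_mod_cast Set.ncard_le_ncard this (Set.toFinite _)
  -- the end
  have key : mu F (upd G v (insert z' P)) (E1 R ∅ v v') ≤
      mu F (upd G v P) (E1 R ∅ v v') +
        mu F G1 (fun φ => (E1 R ∅ v v' φ ∧ Uses F v z φ) ∧ z' ∈ Set.range φ) +
        mu F (upd G1 z (U' ∪ f' '' I)) E2 +
        (((sd G z z' : Set V).ncard : ℝ) + ∑ i ∈ I, ((sd G (f i) (f' i)).ncard : ℝ)) * err X V 4 := by
    rw [add_mul]
    linarith
  have hQ1 : ∀ c, c ∈ U' ∪ f' '' I → c ≠ v → c ≠ v' → c ≠ z → c ≠ z' → c ∈ nb G z := by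
    rintro c ((h | h) | h) hcv hcv' hcz hcz'
    · exact absurd h hcv
    · exact hN' c (Or.inl h) hcv hcv' hcz hcz'
    · exact hN' c (Or.inr h) hcv hcv' hcz hcz'
  refine ⟨?_, ?_⟩
  · have b1 := back (F := F) (R := R) (v' := v') (z' := z') (P := P) hvz1 (U' ∪ f' '' I) hQ1
    linarith
  · intro c hcv hcv' hcz1 hcz'1 hcz hcU
    have hUeq : U' ∪ f' '' I = insert v (U ∪ f' '' I) := by
      rw [hU', Set.insert_union]
    have b1 := back (F := F) (R := R) (v' := v') (z' := z') (P := P) hvz1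
      (insert c (insert v (U ∪ f' '' I))) (by
      rintro d (h | h) hdv hdv' hdz hdz'
      · rw [h]; exact hcz
      · rw [← hUeq] at h
        exact hQ1 d h hdv hdv' hdz hdz')
    have b2 := (hSp X V F G1 z E2).2.1 (insert v (U ∪ f' '' I)) c (by
      rintro (h | h)
      · exact hcv h
      · exact hcU h) hcz1
    rw [hUeq] at key
    linarith

end Pool.Agent.K7.H53.UI
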